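import Pool.Agent.H110R3.Urn.Stmts

set_option autoImplicit false

/-! Task N1a of the project H110-URN: exact mean of the quadratic form after one step of two
independent copies. -/

namespace Pool.Agent.H464R3.Urn

open Pool.Agent.H110R3.Urn

/-- abstract computation of the mean of a sum of functions of two independent variables -/
lemma two_copy {ι κ : Type} [Fintype ι] [Fintype κ] (w : ι → ℝ) (w' : κ → ℝ)
    (hw : ∑ i, w i = 1) (hw' : ∑ k, w' k = 1) (c0 : ℝ) (A L : ι → ℝ) (A' L' : κ → ℝ)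
    (M : ι → κ → ℝ) (hL : ∑ i, w i * L i = 0) (hL' : ∑ k, w' k * L' k = 0)
    (hM : ∀ i, ∑ k, w' k * M i k = 0) :
    ∑ i, ∑ k, w i * w' k * (c0 + A i + A' k + L i + L' k + M i k) =
      c0 + ∑ i, w i * A i + ∑ k, w' k * A' k := by
  have h1 : ∀ i, ∑ k, w i * w' k * (c0 + A i + A' k + L i + L' k + M i k) =
      w i * (c0 + ∑ k, w' k * A' k) + w i * A i + w i * L i := by
    intro i
    have : ∀ k, w i * w' k * (c0 + A i + A' k + L i + L' k + M i k) =
        w i * ((c0 + A i + L i) * w' k + w' k * A' k + w' k * L' k + w' k * M i k) := by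
      intro k; ring
    rw [Finset.sum_congr rfl (fun k _ => this k), ← Finset.mul_sum, Finset.sum_add_distrib,
      Finset.sum_add_distrib, Finset.sum_add_distrib, ← Finset.mul_sum, hw', hL', hM]
    ring
  rw [Finset.sum_congr rfl (fun i _ => h1 i), Finset.sum_add_distrib, Finset.sum_add_distrib,
    ← Finset.sum_mul, hw, hL]
  ring

variable {m : ℕ}

/-- the bilinear form -/
def BQ (Q : Fin m → Fin m → ℝ) (u v : Fin m → ℝ) : ℝ := ∑ i, ∑ j, Q i j * u i * v j

lemma BQ_comm {Q : Fin m → Fin m → ℝ} (hQ : ∀ i j, Q i j = Q j i) (u v : Fin m → ℝ) :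
    BQ Q u v = BQ Q v u := by
  unfold BQ
  rw [Finset.sum_comm]
  refine Finset.sum_congr rfl fun i _ => Finset.sum_congr rfl fun j _ => ?_
  rw [hQ j i]; ring

lemma BQ_add_left (Q : Fin m → Fin m → ℝ) (u u' v : Fin m → ℝ) :
    BQ Q (fun i => u i + u' i) v = BQ Q u v + BQ Q u' v := by
  unfold BQ
  rw [← Finset.sum_add_distrib]
  refine Finset.sum_congr rfl fun i _ => ?_
  rw [← Finset.sum_add_distrib]
  refine Finset.sum_congr rfl fun j _ => ?_
  ring

lemma BQ_add_right (Q : Fin m → Fin m → ℝ) (u v v' : Fin m → ℝ) :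
    BQ Q u (fun i => v i + v' i) = BQ Q u v + BQ Q u v' := by
  unfold BQ
  rw [← Finset.sum_add_distrib]
  refine Finset.sum_congr rfl fun i _ => ?_
  rw [← Finset.sum_add_distrib]
  refine Finset.sum_congr rfl fun j _ => ?_
  ring

lemma BQ_smul_left (Q : Fin m → Fin m → ℝ) (c : ℝ) (u v : Fin m → ℝ) :
    BQ Q (fun i => c * u i) v = c * BQ Q u v := by
  unfold BQ
  rw [Finset.mul_sum]
  refine Finset.sum_congr rfl fun i _ => ?_
  rw [Finset.mul_sum]
  refine Finset.sum_congr rfl fun j _ => ?_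
  ring

lemma BQ_smul_right (Q : Fin m → Fin m → ℝ) (c : ℝ) (u v : Fin m → ℝ) :
    BQ Q u (fun i => c * v i) = c * BQ Q u v := by
  unfold BQ
  rw [Finset.mul_sum]
  refine Finset.sum_congr rfl fun i _ => ?_
  rw [Finset.mul_sum]
  refine Finset.sum_congr rfl fun j _ => ?_
  ring

lemma Qf_eq (Q : Fin m → Fin m → ℝ) (u : Fin m → ℝ) : Qf Q u = BQ Q u u := rfl

/-- expansion -/
lemma Qf_expand {Q : Fin m → Fin m → ℝ} (hQ : ∀ i j, Q i j = Q j i) (γ : ℝ)
    (d g a a' : Fin m → ℝ) :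
    Qf Q (fun i => d i + γ * (g i + (a i + (-1) * a' i))) - Qf Q d =
      (2 * γ * BQ Q d g + γ ^ 2 * Qf Q g) + γ ^ 2 * Qf Q a + γ ^ 2 * Qf Q a' +
        BQ Q (fun i => (2 * γ) * d i + (2 * γ ^ 2) * g i) a +
        -(BQ Q (fun i => (2 * γ) * d i + (2 * γ ^ 2) * g i) a') + -(2 * γ ^ 2) * BQ Q a a' := by
  rw [Qf_eq, Qf_eq, Qf_eq, Qf_eq, Qf_eq]
  simp only [BQ_add_left, BQ_add_right, BQ_smul_left, BQ_smul_right]
  rw [BQ_comm hQ g d, BQ_comm hQ a d, BQ_comm hQ a' d, BQ_comm hQ a g, BQ_comm hQ a' g,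
    BQ_comm hQ a' a]
  ring

theorem taskN1a : TaskN1a := by
  intro hA1 hA2 hA3 m G _ hm α Q hQ b b' hb hb' htot
  obtain ⟨-, hw, hmean⟩ := hA1 m G α b hb
  obtain ⟨-, hw', hmean'⟩ := hA1 m G α b' hb'
  have hvar := hA2 m G α b hb Q hQ
  have hvar' := hA2 m G α b' hb' Q hQ
  obtain ⟨-, -, -, hstep, -⟩ := hA3 m G hm
  set γ : ℝ := 1 / (tot b + NE G) with hγ
  set d : Fin m → ℝ := fun i => X b i - X b' i with hd
  set g : Fin m → ℝ := fun i => GG G α (X b) i - GG G α (X b') i with hg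
  let a : Ch G → Fin m → ℝ := fun s i => (Y G s i : ℝ) - fF G α (X b) i
  let a' : Ch G → Fin m → ℝ := fun s i => (Y G s i : ℝ) - fF G α (X b') i
  -- centred
  have cen : ∀ i, ∑ s, w G α b s * a s i = 0 := by
    intro i
    simp only [a, mul_sub, Finset.sum_sub_distrib, ← Finset.sum_mul]
    rw [hmean, hw]; ring
  have cen' : ∀ i, ∑ s, w G α b' s * a' s i = 0 := by
    intro i
    simp only [a', mul_sub, Finset.sum_sub_distrib, ← Finset.sum_mul]
    rw [hmean', hw']; ring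
  have lin : ∀ u : Fin m → ℝ, ∑ s, w G α b s * BQ Q u (a s) = 0 := by
    intro u
    unfold BQ
    simp only [Finset.mul_sum]
    rw [Finset.sum_comm]
    refine Finset.sum_eq_zero fun i _ => ?_
    rw [Finset.sum_comm]
    refine Finset.sum_eq_zero fun j _ => ?_
    have : ∀ s, w G α b s * (Q i j * u i * a s j) = Q i j * u i * (w G α b s * a s j) := by
      intro s; ring
    rw [Finset.sum_congr rfl (fun s _ => this s), ← Finset.mul_sum, cen, mul_zero]
  have lin' : ∀ u : Fin m → ℝ, ∑ s, w G α b' s * BQ Q u (a' s) = 0 := by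
    intro u
    unfold BQ
    simp only [Finset.mul_sum]
    rw [Finset.sum_comm]
    refine Finset.sum_eq_zero fun i _ => ?_
    rw [Finset.sum_comm]
    refine Finset.sum_eq_zero fun j _ => ?_
    have : ∀ s, w G α b' s * (Q i j * u i * a' s j) = Q i j * u i * (w G α b' s * a' s j) := by
      intro s; ring
    rw [Finset.sum_congr rfl (fun s _ => this s), ← Finset.mul_sum, cen', mul_zero]
  -- pointwise
  have hpt : ∀ s s' : Ch G, Qf Q (fun i => X (stp G b s) i - X (stp G b' s') i) - Qf Q d =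
      (2 * γ * BQ Q d g + γ ^ 2 * Qf Q g) + γ ^ 2 * Qf Q (a s) + γ ^ 2 * Qf Q (a' s') +
        BQ Q (fun i => (2 * γ) * d i + (2 * γ ^ 2) * g i) (a s) +
        -(BQ Q (fun i => (2 * γ) * d i + (2 * γ ^ 2) * g i) (a' s')) +
        -(2 * γ ^ 2) * BQ Q (a s) (a' s') := by
    intro s s'
    rw [← Qf_expand hQ γ d g (a s) (a' s')]
    congr 2
    funext i
    have e1 := hstep b s hb i
    have e2 := hstep b' s' hb' i
    rw [← htot] at e2
    have e3 : X (stp G b s) i = X b i + γ * ((Y G s i : ℝ) - NE G * X b i) := by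
      rw [hγ, one_div, inv_mul_eq_div, ← e1]; ring
    have e4 : X (stp G b' s') i = X b' i + γ * ((Y G s' i : ℝ) - NE G * X b' i) := by
      rw [hγ, one_div, inv_mul_eq_div, ← e2]; ring
    rw [e3, e4]
    simp only [hd, hg, a, a', GG]
    ring
  have hsum : ∑ s, ∑ s', w G α b s * w G α b' s' *
      (Qf Q (fun i => X (stp G b s) i - X (stp G b' s') i) - Qf Q d) =
      (2 * γ * BQ Q d g + γ ^ 2 * Qf Q g) + ∑ s, w G α b s * (γ ^ 2 * Qf Q (a s)) +
        ∑ s', w G α b' s' * (γ ^ 2 * Qf Q (a' s')) := by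
    rw [← two_copy (w G α b) (w G α b') hw hw' (2 * γ * BQ Q d g + γ ^ 2 * Qf Q g)
      (fun s => γ ^ 2 * Qf Q (a s))
      (fun s => BQ Q (fun i => (2 * γ) * d i + (2 * γ ^ 2) * g i) (a s))
      (fun s' => γ ^ 2 * Qf Q (a' s'))
      (fun s' => -(BQ Q (fun i => (2 * γ) * d i + (2 * γ ^ 2) * g i) (a' s')))
      (fun s s' => -(2 * γ ^ 2) * BQ Q (a s) (a' s')) (lin _)
      (by simp only [mul_neg, Finset.sum_neg_distrib]; rw [lin']; simp)
      (by
        intro s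
        have : ∀ s', w G α b' s' * (-(2 * γ ^ 2) * BQ Q (a s) (a' s')) =
            -(2 * γ ^ 2) * (w G α b' s' * BQ Q (a s) (a' s')) := by intro s'; ring
        rw [Finset.sum_congr rfl (fun s' _ => this s'), ← Finset.mul_sum, lin', mul_zero])]
    refine Finset.sum_congr rfl fun s _ => Finset.sum_congr rfl fun s' _ => ?_
    rw [hpt]
  rw [hsum]
  have v1 : ∑ s, w G α b s * (γ ^ 2 * Qf Q (a s)) = γ ^ 2 * ∑ e : Ed G,
      ww α (X b e.1.1) (X b e.1.2) * (Q e.1.1 e.1.1 - 2 * Q e.1.1 e.1.2 + Q e.1.2 e.1.2) := by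
    have : ∀ s, w G α b s * (γ ^ 2 * Qf Q (a s)) = γ ^ 2 * (w G α b s * Qf Q (a s)) := by
      intro s; ring
    rw [Finset.sum_congr rfl (fun s _ => this s), ← Finset.mul_sum]
    congr 1
  have v2 : ∑ s, w G α b' s * (γ ^ 2 * Qf Q (a' s)) = γ ^ 2 * ∑ e : Ed G,
      ww α (X b' e.1.1) (X b' e.1.2) * (Q e.1.1 e.1.1 - 2 * Q e.1.1 e.1.2 + Q e.1.2 e.1.2) := by
    have : ∀ s, w G α b' s * (γ ^ 2 * Qf Q (a' s)) = γ ^ 2 * (w G α b' s * Qf Q (a' s)) := by
      intro s; ring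
    rw [Finset.sum_congr rfl (fun s _ => this s), ← Finset.mul_sum]
    congr 1
  rw [v1, v2]
  have e5 : BQ Q d g = ∑ i, ∑ j, Q i j * (X b i - X b' i) * (GG G α (X b) j - GG G α (X b') j) :=
    rfl
  rw [e5]
  have hγ2 : 1 / (tot b + (NE G : ℝ)) ^ 2 = γ ^ 2 := by rw [hγ, div_pow, one_pow]
  have hγ1 : 2 / (tot b + (NE G : ℝ)) = 2 * γ := by rw [hγ]; ring
  rw [hγ2, hγ1]
  ring

end Pool.Agent.H464R3.Urn
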